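import Pool.Agent.Y614.GJ.Core
import Pool.Agent.Y883.GJ.Stm2

/-!
# The mean square in a residue class, correlations (helper883, helper614)
-/

set_option autoImplicit false

namespace Pool.Agent.Y614.GJ.CoreC

open Finset
open Pool.Agent.Y883.GJ
open Pool.Agent.H807R2.Dav (ee)
open Pool.Agent.H373R2.T7 (lamz Vz pz)
open Pool.Agent.Y883.T3 (lsh)
open Pool.Agent.Y614.GJ.Core (P P_nonneg P_le q_le_phi LA_sq FF_le FF_sq card_above gcd_above
  dirich ev_log)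

/-- Cauchy–Schwarz -/
lemma S_leC (q N : ℕ) [NeZero q] (G F : ℕ → ℂ) (β : ℝ) (a : ZMod q) :
    ‖∑ l : ZMod q, cl q N G β l * (starRingEnd ℂ) (cl q N F β (l - a))‖ ^ 2 ≤ P q N G β * P q N F β := by
  have h1 : ‖∑ l : ZMod q, cl q N G β l * (starRingEnd ℂ) (cl q N F β (l - a))‖ ≤
      ∑ l : ZMod q, ‖cl q N G β l‖ * ‖cl q N F β (l - a)‖ :=
    (norm_sum_le _ _).trans (le_of_eq (sum_congr rfl fun l _ => by
      rw [norm_mul, RCLike.norm_conj]))
  have h2 : ∑ l : ZMod q, ‖cl q N F β (l - a)‖ ^ 2 = P q N F β :=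
    Fintype.sum_equiv (Equiv.subRight a) _ _ fun l => rfl
  calc ‖∑ l : ZMod q, cl q N G β l * (starRingEnd ℂ) (cl q N F β (l - a))‖ ^ 2
      ≤ (∑ l : ZMod q, ‖cl q N G β l‖ * ‖cl q N F β (l - a)‖) ^ 2 := by gcongr
    _ ≤ (∑ l : ZMod q, ‖cl q N G β l‖ ^ 2) * ∑ l : ZMod q, ‖cl q N F β (l - a)‖ ^ 2 :=
        sum_mul_sq_le_sq_mul_sq _ _ _
    _ = _ := by rw [h2]; rfl

/-- the major arcs -/
lemma majorC (h3C : LiftCStm) (h3 : LiftStm) {q N k : ℕ} [NeZero q] [NeZero (k * q)] {z r : ℕ} {h : ℤ} {β η : ℝ}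
    {a : ZMod q} {X : ℝ} (hβ : β = h / (k * q : ℕ) + η)
    (hX : ∀ a' : ZMod (k * q), ((a'.val : ℕ) : ZMod q) = a →
      ‖∑ l : ZMod (k * q), cl (k * q) N LA η l * (starRingEnd ℂ) (cl (k * q) N (FF z r) η (l - a'))‖ ^ 2 ≤
        X * (∑ l : ZMod (k * q), ‖cl (k * q) N LA η l‖ ^ 2 +
          ∑ l : ZMod (k * q), ‖cl (k * q) N (FF z r) η l‖ ^ 2)) :
    ‖∑ l : ZMod q, cl q N LA β l * (starRingEnd ℂ) (cl q N (FF z r) β (l - a))‖ ^ 2 ≤
      (k : ℝ) ^ 2 * (X * (P (k * q) N LA β + P (k * q) N (FF z r) β)) := by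
  have l1 := h3C q k N LA (FF z r) h β η hβ
  have l2 : ∀ F : ℕ → ℂ, ∑ l : ZMod (k * q), ‖cl (k * q) N F η l‖ ^ 2 = P (k * q) N F β := by
    intro F
    obtain ⟨-, l2⟩ := h3 q k N F F h β η hβ
    exact sum_congr rfl fun l _ => by rw [l2]
  rw [l2, l2] at hX
  set Y := X * (P (k * q) N LA β + P (k * q) N (FF z r) β) with hY
  set S := univ.filter (fun a' : ZMod (k * q) => ((a'.val : ℕ) : ZMod q) = a) with hS
  have hc : (S.card : ℝ) ≤ k := by exact_mod_cast card_above k q a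
  have h0 : ∀ a' ∈ S, ‖∑ l : ZMod (k * q), cl (k * q) N LA η l *
      (starRingEnd ℂ) (cl (k * q) N (FF z r) η (l - a'))‖ ^ 2 ≤ Y := fun a' ha' => hX a' (mem_filter.1 ha').2
  calc ‖∑ l : ZMod q, cl q N LA β l * (starRingEnd ℂ) (cl q N (FF z r) β (l - a))‖ ^ 2
      ≤ (∑ a' ∈ S, ‖∑ l : ZMod (k * q), cl (k * q) N LA η l *
          (starRingEnd ℂ) (cl (k * q) N (FF z r) η (l - a'))‖) ^ 2 := by
        have := l1 a
        gcongr
    _ ≤ S.card * ∑ a' ∈ S, ‖∑ l : ZMod (k * q), cl (k * q) N LA η l *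
          (starRingEnd ℂ) (cl (k * q) N (FF z r) η (l - a'))‖ ^ 2 := sq_sum_le_card_mul_sum_sq
    _ ≤ S.card * ∑ a' ∈ S, Y := by
        gcongr with a' ha'
        exact h0 a' ha'
    _ = (S.card : ℝ) ^ 2 * Y := by rw [sum_const, nsmul_eq_mul]; ring
    _ ≤ (k : ℝ) ^ 2 * Y := by
        rcases S.eq_empty_or_nonempty with hS0 | ⟨a', ha'⟩
        · -- no class: use the class of `a`
          exfalso
          have : ((a.val : ℕ) : ZMod (k * q)) ∈ S := by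
            rw [hS, mem_filter]
            refine ⟨mem_univ _, ?_⟩
            have hq : 0 < q := NeZero.pos q
            have hk : 0 < k := Nat.pos_of_ne_zero (left_ne_zero_of_mul (NeZero.ne (k * q)))
            have h1 : a.val < k * q := lt_of_lt_of_le (ZMod.val_lt a) (Nat.le_mul_of_pos_left q hk)
            rw [ZMod.val_natCast, Nat.mod_eq_of_lt h1, ZMod.natCast_zmod_val]
          rw [hS0] at this
          exact absurd this (notMem_empty _)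
        · have hY0 : 0 ≤ Y := le_trans (by positivity) (h0 a' ha')
          gcongr

/-- the estimate for one frequency -/
lemma pointC (h3C : LiftCStm) (h3 : LiftStm) (h5 : OrthStm) {A C T : ℕ} {L : ℝ} {N q : ℕ} [NeZero q]
    {z r : ℕ} {a : ZMod q} (hL : L = Real.log N) (hL8 : 8 ≤ L) (hN : 1 ≤ N)
    (hqN : (q : ℝ) ≤ N) (hqLC : (q : ℝ) * L ^ C ≤ N)
    (hgcd : (Nat.gcd a.val q : ℝ) ≤ L ^ T)
    (hmin : ∀ (k : ℕ) (h : ℤ) (β : ℝ), L ^ C ≤ k → (q : ℝ) * k * L ^ C ≤ N →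
      IsCoprime h (k : ℤ) → |q * β - h / k| ≤ 1 / (k : ℝ) ^ 2 →
      ∑ χ : DirichletCharacter ℂ q, ‖cs q N (FF z r) β χ‖ ^ 2 ≤ (N : ℝ) ^ 2 / L ^ (A + 11))
    (hnon : ∀ β : ℝ, ∑ l ∈ univ.filter (fun l : ZMod q => ¬ IsUnit l),
      ‖cl q N (FF z r) β l‖ ^ 2 ≤ (N : ℝ) ^ 2 / (q * L ^ (A + 9)) / 2)
    (hpw : ∀ j : ℕ, ((j + 1 : ℕ) : ℝ) ≤ L ^ C → ∀ a' : ZMod ((j + 1) * q),
      (Nat.gcd a'.val ((j + 1) * q) : ℝ) ≤ L ^ (T + C) → ∀ η : ℝ, |η| ≤ L ^ C / N →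
      ‖∑ l : ZMod ((j + 1) * q), cl ((j + 1) * q) N LA η l *
        (starRingEnd ℂ) (cl ((j + 1) * q) N (FF z r) η (l - a'))‖ ^ 2 ≤
      (N : ℝ) ^ 2 / ((((j + 1) * q : ℕ) : ℝ) * L ^ (A + 2 * C + 9)) *
        (∑ l : ZMod ((j + 1) * q), ‖cl ((j + 1) * q) N LA η l‖ ^ 2 +
          ∑ l : ZMod ((j + 1) * q), ‖cl ((j + 1) * q) N (FF z r) η l‖ ^ 2))
    (β : ℝ) :
    ‖∑ l : ZMod q, cl q N LA β l * (starRingEnd ℂ) (cl q N (FF z r) β (l - a))‖ ^ 2 ≤
      (N : ℝ) ^ 2 / (q * L ^ (A + 9)) * P q N LA β +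
      L ^ C * ((N : ℝ) ^ 2 / (q * L ^ (A + 2 * C + 9))) *
        ∑ j ∈ range ⌊L ^ C⌋₊, (P ((j + 1) * q) N LA β + P ((j + 1) * q) N (FF z r) β) := by
  have hL0 : 0 < L := by linarith
  have hq0 : (0 : ℝ) < q := by exact_mod_cast NeZero.pos q
  have hN0 : (0 : ℝ) < N := by exact_mod_cast hN
  have hLC : 0 < L ^ C := by positivity
  have hsum0 : 0 ≤ ∑ j ∈ range ⌊L ^ C⌋₊,
      (P ((j + 1) * q) N LA β + P ((j + 1) * q) N (FF z r) β) :=
    sum_nonneg fun j _ => add_nonneg (P_nonneg _ _ _ _) (P_nonneg _ _ _ _)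
  set n := ⌊(N : ℝ) / (q * L ^ C)⌋₊ with hn
  have hn0 : 0 < n := by
    rw [hn, Nat.floor_pos, le_div_iff₀ (by positivity), one_mul]
    exact hqLC
  have hn1 : (n : ℝ) ≤ (N : ℝ) / (q * L ^ C) := Nat.floor_le (by positivity)
  have hn2 : (N : ℝ) / (q * L ^ C) < n + 1 := Nat.lt_floor_add_one _
  obtain ⟨j, h, hj, hcop, hx⟩ := dirich ((q : ℝ) * β) hn0
  have hjn : ((j + 1 : ℕ) : ℝ) ≤ n := by exact_mod_cast hj
  have hk0 : (0 : ℝ) < ((j + 1 : ℕ) : ℝ) := by positivity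
  have hk1 : (1 : ℝ) ≤ ((j + 1 : ℕ) : ℝ) := by exact_mod_cast Nat.succ_pos j
  have hP0 : 0 ≤ P q N LA β := P_nonneg _ _ _ _
  by_cases hkC : L ^ C ≤ ((j + 1 : ℕ) : ℝ)
  · -- minor arcs
    have e1 : (q : ℝ) * ((j + 1 : ℕ) : ℝ) * L ^ C ≤ N := by
      have := (le_div_iff₀ (by positivity)).1 (hjn.trans hn1)
      linarith
    have e2 : |(q : ℝ) * β - h / ((j + 1 : ℕ) : ℝ)| ≤ 1 / ((j + 1 : ℕ) : ℝ) ^ 2 := by
      refine hx.trans ?_
      rw [sq]
      apply one_div_le_one_div_of_le (by positivity)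
      apply mul_le_mul_of_nonneg_right _ hk0.le
      linarith
    have e3 := hmin (j + 1) h β hkC e1 hcop e2
    have e4 := P_le h5 e3 (hnon β)
    have hφ0 : (0 : ℝ) < q.totient := by exact_mod_cast Nat.totient_pos.2 (NeZero.pos q)
    have e5 : ((q.totient : ℝ))⁻¹ ≤ 3 * L / q := by
      have h1 := q_le_phi (NeZero.pos q)
      have h2 : Real.log q ≤ L := by
        rw [hL]
        exact Real.log_le_log hq0 hqN
      rw [inv_eq_one_div, div_le_div_iff₀ hφ0 hq0, one_mul]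
      refine h1.trans ?_
      rw [mul_comm (3 * L)]
      apply mul_le_mul_of_nonneg_left _ hφ0.le
      linarith
    have e6 : ((q.totient : ℝ))⁻¹ * ((N : ℝ) ^ 2 / L ^ (A + 11)) ≤
        (N : ℝ) ^ 2 / (q * L ^ (A + 9)) / 2 := by
      calc ((q.totient : ℝ))⁻¹ * ((N : ℝ) ^ 2 / L ^ (A + 11))
          ≤ 3 * L / q * ((N : ℝ) ^ 2 / L ^ (A + 11)) := by gcongr
        _ = (N : ℝ) ^ 2 / (q * L ^ (A + 9)) * (3 / L) := by
            rw [show A + 11 = (A + 9) + 2 by ring, pow_add]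
            field_simp
        _ ≤ (N : ℝ) ^ 2 / (q * L ^ (A + 9)) * (1 / 2) := by
            have : 3 / L ≤ 1 / 2 := by
              rw [div_le_div_iff₀ hL0 (by norm_num)]
              linarith
            gcongr
        _ = _ := by ring
    have e7 : P q N (FF z r) β ≤ (N : ℝ) ^ 2 / (q * L ^ (A + 9)) := by
      refine e4.trans ?_
      linarith
    calc ‖∑ l : ZMod q, cl q N LA β l * (starRingEnd ℂ) (cl q N (FF z r) β (l - a))‖ ^ 2
        ≤ P q N LA β * P q N (FF z r) β := S_leC q N LA (FF z r) β a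
      _ ≤ P q N LA β * ((N : ℝ) ^ 2 / (q * L ^ (A + 9))) := by gcongr
      _ = (N : ℝ) ^ 2 / (q * L ^ (A + 9)) * P q N LA β + 0 := by ring
      _ ≤ _ := by
          gcongr
          positivity
  · -- major arcs
    rw [not_le] at hkC
    set k : ℕ := j + 1 with hk
    have hηle : |β - h / ((k * q : ℕ) : ℝ)| ≤ L ^ C / N := by
      have e1 : β - h / ((k * q : ℕ) : ℝ) = ((q : ℝ) * β - h / (k : ℝ)) / q := by
        push_cast
        field_simp
      rw [e1, abs_div, abs_of_pos hq0, div_le_div_iff₀ hq0 hN0]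
      have e2 : (N : ℝ) ≤ (n + 1) * (q * L ^ C) := by
        have := (div_lt_iff₀ (by positivity)).1 hn2
        linarith
      have hn3 : (0 : ℝ) < n + 1 := by positivity
      calc |(q : ℝ) * β - h / (k : ℝ)| * N ≤ 1 / (((n : ℝ) + 1) * (k : ℝ)) * N := by gcongr
        _ ≤ 1 / ((n : ℝ) + 1) * N := by
            apply mul_le_mul_of_nonneg_right _ hN0.le
            apply one_div_le_one_div_of_le hn3
            nlinarith
        _ ≤ 1 / ((n : ℝ) + 1) * ((n + 1) * (q * L ^ C)) := by gcongr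
        _ = L ^ C * q := by field_simp
    have e3 := majorC (z := z) (r := r) (a := a) h3C h3
      (X := (N : ℝ) ^ 2 / (((k * q : ℕ) : ℝ) * L ^ (A + 2 * C + 9)))
      (h := h) (β := β) (η := β - h / ((k * q : ℕ) : ℝ)) (by ring)
      (fun a' ha' => hpw j hkC.le a' (by
        have h1 := gcd_above ha'
        have h2 : ((Nat.gcd a'.val (k * q) : ℕ) : ℝ) ≤ (k : ℝ) * (Nat.gcd a.val q : ℝ) := by
          exact_mod_cast h1
        calc ((Nat.gcd a'.val (k * q) : ℕ) : ℝ) ≤ (k : ℝ) * (Nat.gcd a.val q : ℝ) := h2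
          _ ≤ L ^ C * L ^ T := by gcongr
          _ = L ^ (T + C) := by rw [← pow_add, add_comm]) _ hηle)
    have hPk : 0 ≤ P (k * q) N LA β + P (k * q) N (FF z r) β :=
      add_nonneg (P_nonneg _ _ _ _) (P_nonneg _ _ _ _)
    have e4 : P (k * q) N LA β + P (k * q) N (FF z r) β ≤ ∑ j ∈ range ⌊L ^ C⌋₊,
        (P ((j + 1) * q) N LA β + P ((j + 1) * q) N (FF z r) β) := by
      refine single_le_sum (f := fun j => P ((j + 1) * q) N LA β + P ((j + 1) * q) N (FF z r) β)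
        (fun j _ => add_nonneg (P_nonneg _ _ _ _) (P_nonneg _ _ _ _)) (mem_range.2 ?_)
      have : k ≤ ⌊L ^ C⌋₊ := Nat.le_floor hkC.le
      omega
    have hX0 : 0 ≤ (N : ℝ) ^ 2 / (q * L ^ (A + 2 * C + 9)) := by positivity
    calc ‖∑ l : ZMod q, cl q N LA β l * (starRingEnd ℂ) (cl q N (FF z r) β (l - a))‖ ^ 2
        ≤ (k : ℝ) ^ 2 * ((N : ℝ) ^ 2 / (((k * q : ℕ) : ℝ) * L ^ (A + 2 * C + 9)) *
          (P (k * q) N LA β + P (k * q) N (FF z r) β)) := e3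
      _ = k * ((N : ℝ) ^ 2 / (q * L ^ (A + 2 * C + 9))) *
          (P (k * q) N LA β + P (k * q) N (FF z r) β) := by
          rw [Nat.cast_mul]
          field_simp
      _ ≤ L ^ C * ((N : ℝ) ^ 2 / (q * L ^ (A + 2 * C + 9))) *
          ∑ j ∈ range ⌊L ^ C⌋₊, (P ((j + 1) * q) N LA β + P ((j + 1) * q) N (FF z r) β) := by
          gcongr
      _ = 0 + L ^ C * ((N : ℝ) ^ 2 / (q * L ^ (A + 2 * C + 9))) *
          ∑ j ∈ range ⌊L ^ C⌋₊, (P ((j + 1) * q) N LA β + P ((j + 1) * q) N (FF z r) β) := by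
          ring
      _ ≤ _ := by
          gcongr
          positivity

theorem coreC (h1 : PWCStm) (h2 : MinFStm) (h3 : LiftCStm) (h3' : LiftStm) (h4 : ParsCStm)
    (h4' : ParsStm) (h5 : OrthStm) (_h6 : L2Stm) (h7 : NonUStm) : CoreCStm := by
  intro A T ρ hρ
  obtain ⟨C, N₁, hM⟩ := h2 (A + 11) ρ hρ
  obtain ⟨U₀, N₂, hPW⟩ := h1 (A + 2 * C + 9) C (T + C) (ρ / 2) (by positivity)
  obtain ⟨c, hc⟩ := h7
  obtain ⟨N₃, hN₃⟩ := Filter.eventually_atTop.1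
    (ev_log C (s := ρ / 2) (by positivity) (max 8 (2 ^ c : ℝ)))
  refine ⟨U₀ + c + 2 * (A + 10) + 1, max (max N₁ N₂) (max N₃ 1), ?_⟩
  intro N hN q _ hq z r hPar a ha
  have hNN₁ : N₁ ≤ N := le_trans (le_trans (le_max_left _ _) (le_max_left _ _)) hN
  have hNN₂ : N₂ ≤ N := le_trans (le_trans (le_max_right _ _) (le_max_left _ _)) hN
  have hNN₃ : N₃ ≤ N := le_trans (le_trans (le_max_left _ _) (le_max_right _ _)) hN
  have hN1 : 1 ≤ N := le_trans (le_trans (le_max_right _ _) (le_max_right _ _)) hN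
  obtain ⟨hLmax, hLC⟩ := hN₃ N hNN₃
  set L := Real.log N with hL
  have hL8 : 8 ≤ L := (le_max_left _ _).trans hLmax
  have hLc : (2 : ℝ) ^ c ≤ L := (le_max_right _ _).trans hLmax
  have hL0 : 0 < L := by linarith
  have hL1 : 1 ≤ L := by linarith
  have hN0 : (0 : ℝ) < N := by exact_mod_cast hN1
  have hNr1 : (1 : ℝ) ≤ N := by exact_mod_cast hN1
  have hq0 : (0 : ℝ) < q := by exact_mod_cast NeZero.pos q
  have hLC1 : 1 ≤ L ^ C := one_le_pow₀ hL1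
  have hqLC' : (q : ℝ) * L ^ C ≤ (N : ℝ) ^ (1 / 2 - ρ / 2) := by
    calc (q : ℝ) * L ^ C ≤ (N : ℝ) ^ (1 / 2 - ρ) * (N : ℝ) ^ (ρ / 2) := by gcongr
      _ = (N : ℝ) ^ (1 / 2 - ρ / 2) := by
          rw [← Real.rpow_add hN0]
          congr 1
          ring
  have hqLC : (q : ℝ) * L ^ C ≤ N := by
    refine hqLC'.trans ?_
    calc (N : ℝ) ^ (1 / 2 - ρ / 2) ≤ (N : ℝ) ^ (1 : ℝ) :=
          Real.rpow_le_rpow_of_exponent_le hNr1 (by linarith)
      _ = N := Real.rpow_one _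
  have hqN : (q : ℝ) ≤ N := by
    refine le_trans ?_ hqLC
    nlinarith
  have hqNn : q ≤ N := by exact_mod_cast hqN
  have hPar₀ : Par U₀ N z r := Pool.Agent.Y614.GJ.Core.Par.mono hPar (by omega) hL1
  -- the classes which are not units
  have hnon : ∀ β : ℝ, ∑ l ∈ univ.filter (fun l : ZMod q => ¬ IsUnit l),
      ‖cl q N (FF z r) β l‖ ^ 2 ≤ (N : ℝ) ^ 2 / (q * L ^ (A + 9)) / 2 := by
    intro β
    have e1 := hc q N (FF z r) (2 * L) (N / L ^ (U₀ + c + 2 * (A + 10) + 1)) β hN1 (by linarith)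
      (fun n hn => FF_le hPar hn) (by
        have := hPar.hC q (NeZero.pos q) hqNn
        refine le_trans (le_of_eq (sum_congr rfl fun n _ => ?_)) this
        unfold FF
        rw [Complex.norm_real, Real.norm_eq_abs])
    refine e1.trans ?_
    have e2 : N / L ^ (U₀ + c + 2 * (A + 10) + 1) * (N * (2 * L) ^ c) ≤
        ((N : ℝ) / L ^ (A + 10)) ^ 2 := by
      have h8 : (1 : ℝ) ≤ L ^ U₀ := one_le_pow₀ hL1
      calc N / L ^ (U₀ + c + 2 * (A + 10) + 1) * (N * (2 * L) ^ c)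
          = ((N : ℝ) / L ^ (A + 10)) ^ 2 * (2 ^ c / (L ^ U₀ * L)) := by
            rw [mul_pow, pow_succ, pow_add, pow_add, pow_mul']
            field_simp
        _ ≤ ((N : ℝ) / L ^ (A + 10)) ^ 2 * 1 := by
            gcongr
            rw [div_le_one (by positivity)]
            nlinarith
        _ = _ := mul_one _
    have e3 : √(N / L ^ (U₀ + c + 2 * (A + 10) + 1) * (N * (2 * L) ^ c)) ≤
        (N : ℝ) / L ^ (A + 10) := Real.sqrt_le_iff.2 ⟨by positivity, e2⟩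
    have e4 : (N : ℝ) / q + 1 ≤ 2 * (N / q) := by
      have : (1 : ℝ) ≤ N / q := by
        rw [le_div_iff₀ hq0, one_mul]
        exact hqN
      linarith
    calc ((N : ℝ) / q + 1) * √(N / L ^ (U₀ + c + 2 * (A + 10) + 1) * (N * (2 * L) ^ c))
        ≤ 2 * (N / q) * (N / L ^ (A + 10)) := by
          apply mul_le_mul e4 e3 (Real.sqrt_nonneg _) (by positivity)
      _ = (N : ℝ) ^ 2 / (q * L ^ (A + 9)) * (2 / L) := by
          rw [show A + 10 = (A + 9) + 1 by ring, pow_succ L (A + 9)]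
          field_simp
      _ ≤ (N : ℝ) ^ 2 / (q * L ^ (A + 9)) * (1 / 2) := by
          have : 2 / L ≤ 1 / 2 := by
            rw [div_le_div_iff₀ hL0 (by norm_num)]
            linarith
          gcongr
      _ = _ := by ring
  -- the estimate for one frequency
  have hpt := pointC (z := z) (r := r) (a := a) h3 h3' h5 hL hL8 hN1 hqN hqLC ha
    (fun k h β hk1 hk2 hk3 hk4 => hM N hNN₁ q hq z r hPar.hD hPar.hV k h β hk1 hk2 hk3 hk4)
    hnon
    (fun j hj a' ha' η hη => hPW N hNN₂ ((j + 1) * q) (by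
      push_cast
      calc ((j : ℝ) + 1) * q ≤ L ^ C * q := by
            have : ((j + 1 : ℕ) : ℝ) = (j : ℝ) + 1 := by push_cast; ring
            rw [this] at hj
            gcongr
        _ = q * L ^ C := mul_comm _ _
        _ ≤ _ := hqLC') z r hPar₀ a' ha' η hη)
  -- Parseval
  set D : ℝ := ((2 * N + 1 : ℕ) : ℝ) with hD
  have hD0 : 0 < D := by rw [hD]; positivity
  have hsumP : ∀ (q' : ℕ) [NeZero q'] (F : ℕ → ℂ),
      ∑ t ∈ range (2 * N + 1), P q' N F ((t : ℝ) / D) = D * ∑ n ∈ Icc 1 N, ‖F n‖ ^ 2 :=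
    fun q' _ F => (h4' q' N F F hN1).2
  set WL := ∑ n ∈ Icc 1 N, ‖LA n‖ ^ 2 with hWL
  set WF := ∑ n ∈ Icc 1 N, ‖FF z r n‖ ^ 2 with hWF
  have hWL0 : 0 ≤ WL := sum_nonneg fun _ _ => by positivity
  have hWF0 : 0 ≤ WF := sum_nonneg fun _ _ => by positivity
  have hW : WL + WF ≤ N * L ^ 8 := by
    have w1 : WL ≤ N * L ^ 2 := LA_sq
    have w2 : WF ≤ 4 * L ^ 2 * (N * (1 + L) ^ 3) := FF_sq hPar hL1
    have w3 : (1 + L) ^ 3 ≤ (2 * L) ^ 3 := by gcongr; linarith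
    have w4 : 4 * L ^ 2 * (N * (1 + L) ^ 3) ≤ 4 * L ^ 2 * (N * (2 * L) ^ 3) := by gcongr
    have w5 : (1 : ℝ) ≤ L ^ 3 := one_le_pow₀ hL1
    have w6 : (512 : ℝ) ≤ L ^ 3 := by
      calc (512 : ℝ) = 8 ^ 3 := by norm_num
        _ ≤ L ^ 3 := by gcongr
    have w7 : (N : ℝ) * L ^ 2 ≤ N * L ^ 5 :=
      mul_le_mul_of_nonneg_left (pow_le_pow_right₀ hL1 (by norm_num)) hN0.le
    calc WL + WF ≤ N * L ^ 5 + 4 * L ^ 2 * (N * (2 * L) ^ 3) := by linarith
      _ = 33 * (N * L ^ 5) := by ring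
      _ ≤ L ^ 3 * (N * L ^ 5) := by
          apply mul_le_mul_of_nonneg_right _ (by positivity)
          linarith
      _ = N * L ^ 8 := by ring
  set c1 := (N : ℝ) ^ 2 / (q * L ^ (A + 9)) with hc1
  set c2 := L ^ C * ((N : ℝ) ^ 2 / (q * L ^ (A + 2 * C + 9))) with hc2
  have hc10 : 0 ≤ c1 := by positivity
  have hc20 : 0 ≤ c2 := by positivity
  have hK : ((⌊L ^ C⌋₊ : ℕ) : ℝ) ≤ L ^ C := Nat.floor_le (by positivity)
  have main := h4 q N LA (FF z r) hN1 a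
  have step : ∑ t ∈ range (2 * N + 1), ‖∑ l : ZMod q, cl q N LA ((t : ℝ) / D) l *
      (starRingEnd ℂ) (cl q N (FF z r) ((t : ℝ) / D) (l - a))‖ ^ 2 ≤ D * (c1 * (N * L ^ 8) +
        c2 * (L ^ C * (N * L ^ 8))) := by
    calc ∑ t ∈ range (2 * N + 1), ‖∑ l : ZMod q, cl q N LA ((t : ℝ) / D) l *
        (starRingEnd ℂ) (cl q N (FF z r) ((t : ℝ) / D) (l - a))‖ ^ 2
        ≤ ∑ t ∈ range (2 * N + 1), (c1 * P q N LA ((t : ℝ) / D) +
          c2 * ∑ j ∈ range ⌊L ^ C⌋₊, (P ((j + 1) * q) N LA ((t : ℝ) / D) +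
            P ((j + 1) * q) N (FF z r) ((t : ℝ) / D))) :=
          sum_le_sum fun t _ => hpt _
      _ = c1 * (D * WL) + c2 * ∑ j ∈ range ⌊L ^ C⌋₊, (D * WL + D * WF) := by
          rw [sum_add_distrib, ← mul_sum, ← mul_sum, hsumP q LA, sum_comm]
          congr 2
          refine sum_congr rfl fun j _ => ?_
          rw [sum_add_distrib, hsumP ((j + 1) * q) LA, hsumP ((j + 1) * q) (FF z r)]
      _ = D * (c1 * WL + c2 * ((⌊L ^ C⌋₊ : ℕ) * (WL + WF))) := by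
          rw [sum_const, card_range, nsmul_eq_mul]
          ring
      _ ≤ D * (c1 * (N * L ^ 8) + c2 * (L ^ C * (N * L ^ 8))) := by
          have : WL ≤ N * L ^ 8 := by linarith
          have h0 : 0 ≤ WL + WF := by linarith
          gcongr
  have h9 : D * ∑ k ∈ (Icc (-(N : ℤ)) N).filter (fun k : ℤ => (k : ZMod q) = a),
      ‖∑ b ∈ Icc 1 N, ∑ c ∈ Icc 1 N, if (b : ℤ) - c = k then LA b * FF z r c else 0‖ ^ 2 ≤
        D * (c1 * (N * L ^ 8) + c2 * (L ^ C * (N * L ^ 8))) := by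
    have hc : ∀ c, (starRingEnd ℂ) (FF z r c) = FF z r c := fun c => Complex.conj_ofReal _
    simp only [hc] at main
    exact main.le.trans step
  have h10 := le_of_mul_le_mul_left h9 hD0
  refine h10.trans ?_
  have e1 : c1 * (N * L ^ 8) = (N : ℝ) ^ 3 / (q * L ^ A) * (1 / L) := by
    rw [hc1, show A + 9 = A + 8 + 1 by ring, pow_succ, pow_add]
    field_simp
    try ring
  have e2 : c2 * (L ^ C * (N * L ^ 8)) = (N : ℝ) ^ 3 / (q * L ^ A) * (1 / L) := by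
    rw [hc2, show A + 2 * C + 9 = A + C + C + 8 + 1 by ring, pow_succ, pow_add, pow_add, pow_add]
    field_simp
    try ring
  rw [e1, e2, ← mul_add]
  have e3 : 1 / L + 1 / L ≤ 1 := by
    rw [← add_div, div_le_one hL0]
    linarith
  calc (N : ℝ) ^ 3 / (q * L ^ A) * (1 / L + 1 / L) ≤ (N : ℝ) ^ 3 / (q * L ^ A) * 1 := by gcongr
    _ = _ := mul_one _

end Pool.Agent.Y614.GJ.CoreC
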