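import Pool.Agent.Y883.GJ.Stm
import Pool.Agent.W93.LV2

/-!
# The mean square in a residue class (helper883, helper614)
-/

set_option autoImplicit false

namespace Pool.Agent.Y614.GJ.Core

open Finset
open Pool.Agent.Y883.GJ
open Pool.Agent.H807R2.Dav (ee)
open Pool.Agent.H373R2.T7 (lamz Vz pz)
open Pool.Agent.Y883.T3 (lsh)

/-- the square mean over the classes -/
noncomputable def P (q N : ℕ) [NeZero q] (F : ℕ → ℂ) (β : ℝ) : ℝ :=
  ∑ l : ZMod q, ‖cl q N F β l‖ ^ 2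

lemma P_nonneg (q N : ℕ) [NeZero q] (F : ℕ → ℂ) (β : ℝ) : 0 ≤ P q N F β :=
  sum_nonneg fun _ _ => by positivity

/-- Cauchy–Schwarz -/
lemma S_le (q N : ℕ) [NeZero q] (G F : ℕ → ℂ) (β : ℝ) (a : ZMod q) :
    ‖∑ l : ZMod q, cl q N G β l * cl q N F β (a - l)‖ ^ 2 ≤ P q N G β * P q N F β := by
  have h1 : ‖∑ l : ZMod q, cl q N G β l * cl q N F β (a - l)‖ ≤
      ∑ l : ZMod q, ‖cl q N G β l‖ * ‖cl q N F β (a - l)‖ :=
    (norm_sum_le _ _).trans (le_of_eq (sum_congr rfl fun l _ => norm_mul _ _))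
  have h2 : ∑ l : ZMod q, ‖cl q N F β (a - l)‖ ^ 2 = P q N F β :=
    Fintype.sum_equiv (Equiv.subLeft a) _ _ fun l => rfl
  calc ‖∑ l : ZMod q, cl q N G β l * cl q N F β (a - l)‖ ^ 2
      ≤ (∑ l : ZMod q, ‖cl q N G β l‖ * ‖cl q N F β (a - l)‖) ^ 2 := by gcongr
    _ ≤ (∑ l : ZMod q, ‖cl q N G β l‖ ^ 2) * ∑ l : ZMod q, ‖cl q N F β (a - l)‖ ^ 2 :=
        sum_mul_sq_le_sq_mul_sq _ _ _
    _ = _ := by rw [h2]; rfl

/-- the square mean from the characters and the classes which are not units -/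
lemma P_le (h5 : OrthStm) {q N : ℕ} [NeZero q] {F : ℕ → ℂ} {β X1 X2 : ℝ}
    (hs : ∑ χ : DirichletCharacter ℂ q, ‖cs q N F β χ‖ ^ 2 ≤ X1)
    (hn : ∑ l ∈ univ.filter (fun l : ZMod q => ¬ IsUnit l), ‖cl q N F β l‖ ^ 2 ≤ X2) :
    P q N F β ≤ (q.totient : ℝ)⁻¹ * X1 + X2 := by
  obtain ⟨-, -, h⟩ := h5 q N F β ∅
  rw [h] at hs
  have hφ : (0 : ℝ) < q.totient := by exact_mod_cast Nat.totient_pos.2 (NeZero.pos q)
  have h1 : ∑ l ∈ univ.filter (fun l : ZMod q => IsUnit l), ‖cl q N F β l‖ ^ 2 ≤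
      (q.totient : ℝ)⁻¹ * X1 := by
    rw [inv_mul_eq_div, le_div_iff₀ hφ, mul_comm]
    exact hs
  have h2 : P q N F β = ∑ l ∈ univ.filter (fun l : ZMod q => IsUnit l), ‖cl q N F β l‖ ^ 2 +
      ∑ l ∈ univ.filter (fun l : ZMod q => ¬ IsUnit l), ‖cl q N F β l‖ ^ 2 :=
    (sum_filter_add_sum_filter_not _ _ _).symm
  rw [h2]
  exact add_le_add h1 hn

lemma prod_ratio (S : Finset ℕ) (h : ∀ p ∈ S, 2 ≤ p) :
    ∏ p ∈ S, ((p : ℝ) / ((p : ℝ) - 1)) ≤ S.card + 1 := by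
  induction S using Finset.induction_on_max with
  | empty => simp
  | insert m s hm ih =>
    have hms : m ∉ s := fun h => lt_irrefl _ (hm m h)
    rw [prod_insert hms, card_insert_of_notMem hms]
    have ih' := ih fun p hp => h p (mem_insert_of_mem hp)
    have hcard : s.card + 2 ≤ m := by
      have h1 : s ⊆ Ico 2 m := fun p hp =>
        mem_Ico.2 ⟨h p (mem_insert_of_mem hp), hm p hp⟩
      have h2 := card_le_card h1
      rw [Nat.card_Ico] at h2
      have h3 := h m (mem_insert_self _ _)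
      omega
    have hm' : (s.card : ℝ) + 2 ≤ m := by exact_mod_cast hcard
    have hs0 : (0 : ℝ) ≤ s.card := Nat.cast_nonneg _
    have h4 : (m : ℝ) / ((m : ℝ) - 1) ≤ ((s.card : ℝ) + 2) / ((s.card : ℝ) + 1) := by
      rw [div_le_div_iff₀ (by linarith) (by linarith)]
      nlinarith
    have h5 : 0 ≤ ∏ p ∈ s, ((p : ℝ) / ((p : ℝ) - 1)) := prod_nonneg fun p hp => by
      have : (2 : ℝ) ≤ p := by exact_mod_cast h p (mem_insert_of_mem hp)
      exact div_nonneg (by linarith) (by linarith)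
    calc (m : ℝ) / ((m : ℝ) - 1) * ∏ p ∈ s, ((p : ℝ) / ((p : ℝ) - 1))
        ≤ ((s.card : ℝ) + 2) / ((s.card : ℝ) + 1) * (s.card + 1) := by
          apply mul_le_mul h4 ih' h5 (by positivity)
      _ = _ := by
          push_cast
          field_simp
          ring

/-- `q / φ(q)` is at most `1 + 2 log q` -/
lemma q_le_phi {q : ℕ} (hq : 0 < q) : (q : ℝ) ≤ q.totient * (1 + 2 * Real.log q) := by
  have h1 := Nat.totient_mul_prod_primeFactors q
  have h2 : ∏ p ∈ q.primeFactors, ((p : ℝ) / ((p : ℝ) - 1)) ≤ q.primeFactors.card + 1 :=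
    prod_ratio _ fun p hp => (Nat.prime_of_mem_primeFactors hp).two_le
  have hpos : ∀ p ∈ q.primeFactors, (0 : ℝ) < (p : ℝ) - 1 := by
    intro p hp
    have : (2 : ℝ) ≤ p := by exact_mod_cast (Nat.prime_of_mem_primeFactors hp).two_le
    linarith
  have h3 : (q.totient : ℝ) * ∏ p ∈ q.primeFactors, (p : ℝ) =
      q * ∏ p ∈ q.primeFactors, ((p : ℝ) - 1) := by
    have := congrArg (Nat.cast : ℕ → ℝ) h1
    push_cast at this
    rw [this]
    congr 1
    refine prod_congr rfl fun p hp => ?_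
    rw [Nat.cast_sub (Nat.prime_of_mem_primeFactors hp).one_lt.le, Nat.cast_one]
  have hP : (0 : ℝ) < ∏ p ∈ q.primeFactors, ((p : ℝ) - 1) := prod_pos hpos
  have h4 : (q : ℝ) = q.totient * ∏ p ∈ q.primeFactors, ((p : ℝ) / ((p : ℝ) - 1)) := by
    rw [prod_div_distrib, mul_div_assoc', h3, mul_div_assoc, div_self hP.ne', mul_one]
  have h5 : ((q.primeFactors.card : ℕ) : ℝ) ≤ 2 * Real.log q := by
    have h6 : 2 ^ q.primeFactors.card ≤ q := by
      calc 2 ^ q.primeFactors.card = ∏ p ∈ q.primeFactors, 2 := by rw [prod_const]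
        _ ≤ ∏ p ∈ q.primeFactors, p :=
            prod_le_prod' fun p hp => (Nat.prime_of_mem_primeFactors hp).two_le
        _ ≤ q := Nat.le_of_dvd hq (Nat.prod_primeFactors_dvd q)
    have h7 : ((q.primeFactors.card : ℕ) : ℝ) * Real.log 2 ≤ Real.log q := by
      rw [← Real.log_pow]
      exact Real.log_le_log (by positivity) (by exact_mod_cast h6)
    have h8 := Real.log_two_gt_d9
    have h9 : (0 : ℝ) ≤ q.primeFactors.card := Nat.cast_nonneg _
    nlinarith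
  calc (q : ℝ) = q.totient * ∏ p ∈ q.primeFactors, ((p : ℝ) / ((p : ℝ) - 1)) := h4
    _ ≤ q.totient * (q.primeFactors.card + 1) := by gcongr
    _ ≤ q.totient * (1 + 2 * Real.log q) := by
        have : (0 : ℝ) ≤ q.totient := Nat.cast_nonneg _
        nlinarith

lemma Par.mono {U U' N z r : ℕ} (h : Par U' N z r) (hU : U ≤ U') (hL : 1 ≤ Real.log N) :
    Par U N z r := by
  have key : (N : ℝ) / Real.log N ^ U' ≤ N / Real.log N ^ U := by
    have : (0 : ℝ) ≤ N := Nat.cast_nonneg _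
    apply div_le_div_of_nonneg_left this (by positivity)
    exact pow_le_pow_right₀ hL hU
  exact ⟨h.hD, h.hV, h.hT, fun α => (h.hS α).trans key, fun q h1 h2 => (h.hC q h1 h2).trans key,
    fun q h1 h2 => (h.hL q h1 h2).trans key⟩

lemma LA_sq {N : ℕ} :
    ∑ n ∈ Icc 1 N, ‖LA n‖ ^ 2 ≤ N * Real.log N ^ 2 := by
  calc ∑ n ∈ Icc 1 N, ‖LA n‖ ^ 2 ≤ ∑ n ∈ Icc 1 N, Real.log N ^ 2 := by
        refine sum_le_sum fun n hn => ?_
        rw [mem_Icc] at hn
        have h1 : ‖LA n‖ ≤ Real.log N := by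
          unfold LA
          rw [Complex.norm_real, Real.norm_of_nonneg ArithmeticFunction.vonMangoldt_nonneg]
          refine ArithmeticFunction.vonMangoldt_le_log.trans ?_
          exact Real.log_le_log (by exact_mod_cast hn.1) (by exact_mod_cast hn.2)
        gcongr
    _ = N * Real.log N ^ 2 := by
        rw [sum_const, Nat.card_Icc, Nat.add_sub_cancel, nsmul_eq_mul]

lemma FF_le {U N z r : ℕ} (h : Par U N z r) {n : ℕ} (hn : n ∈ Icc 1 N) :
    ‖FF z r n‖ ≤ 2 * Real.log N * (n.divisors.card : ℝ) := by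
  unfold FF
  rw [Complex.norm_real]
  exact h.hT n hn

lemma FF_sq {U N z r : ℕ} (h : Par U N z r) (hL : 1 ≤ Real.log N) :
    ∑ n ∈ Icc 1 N, ‖FF z r n‖ ^ 2 ≤ 4 * Real.log N ^ 2 * (N * (1 + Real.log N) ^ 3) := by
  calc ∑ n ∈ Icc 1 N, ‖FF z r n‖ ^ 2
      ≤ ∑ n ∈ Icc 1 N, 4 * Real.log N ^ 2 * (n.divisors.card : ℝ) ^ 2 := by
        refine sum_le_sum fun n hn => ?_
        have h1 := FF_le h hn
        calc ‖FF z r n‖ ^ 2 ≤ (2 * Real.log N * (n.divisors.card : ℝ)) ^ 2 := by gcongr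
          _ = _ := by ring
    _ = 4 * Real.log N ^ 2 * ∑ n ∈ Icc 1 N, (n.divisors.card : ℝ) ^ 2 := by rw [mul_sum]
    _ ≤ _ := by
        have := Pool.Agent.W93.LV.tau_sq N
        gcongr

/-- the number of classes above a class -/
lemma card_above (k q : ℕ) [NeZero q] [NeZero (k * q)] (a : ZMod q) :
    (univ.filter (fun a' : ZMod (k * q) => ((a'.val : ℕ) : ZMod q) = a)).card ≤ k := by
  classical
  have hq : 0 < q := NeZero.pos q
  calc _ ≤ (range k).card := by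
        refine card_le_card_of_injOn (fun a' => a'.val / q) ?_ ?_
        · intro a' _
          rw [coe_range, Set.mem_Iio]
          exact Nat.div_lt_of_lt_mul (lt_of_lt_of_eq (ZMod.val_lt a') (mul_comm k q))
        · intro x hx y hy hxy
          rw [coe_filter, Set.mem_ofPred_eq] at hx hy
          have h1 : ((x.val : ℕ) : ZMod q) = ((y.val : ℕ) : ZMod q) := hx.2.trans hy.2.symm
          have h2 : x.val % q = y.val % q := (ZMod.natCast_eq_natCast_iff' _ _ _).1 h1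
          have hxy' : x.val / q = y.val / q := hxy
          apply ZMod.val_injective
          rw [← Nat.div_add_mod x.val q, ← Nat.div_add_mod y.val q, h2, hxy']
    _ = k := card_range k

lemma gcd_above {k q : ℕ} [NeZero q] [NeZero (k * q)] {a : ZMod q} {a' : ZMod (k * q)}
    (h : ((a'.val : ℕ) : ZMod q) = a) :
    Nat.gcd a'.val (k * q) ≤ k * Nat.gcd a.val q := by
  have hk : 0 < k := Nat.pos_of_ne_zero (left_ne_zero_of_mul (NeZero.ne (k * q)))
  have hq : 0 < q := NeZero.pos q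
  have h1 : Nat.gcd a.val q = Nat.gcd a'.val q := by
    rw [← h, ZMod.val_natCast, ← Nat.gcd_rec, Nat.gcd_comm]
  have h2 := Nat.gcd_mul_right_dvd_mul_gcd a'.val k q
  have h3 : 0 < Nat.gcd a'.val k * Nat.gcd a'.val q :=
    Nat.mul_pos (Nat.gcd_pos_of_pos_right _ hk) (Nat.gcd_pos_of_pos_right _ hq)
  refine (Nat.le_of_dvd h3 h2).trans ?_
  rw [h1]
  exact Nat.mul_le_mul_right _ (Nat.gcd_le_right _ hk)

/-- the major arcs -/
lemma major (h3 : LiftStm) {q N k : ℕ} [NeZero q] [NeZero (k * q)] {z r : ℕ} {h : ℤ} {β η : ℝ}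
    {a : ZMod q} {X : ℝ} (hβ : β = h / (k * q : ℕ) + η)
    (hX : ∀ a' : ZMod (k * q), ((a'.val : ℕ) : ZMod q) = a →
      ‖∑ l : ZMod (k * q), cl (k * q) N LA η l * cl (k * q) N (FF z r) η (a' - l)‖ ^ 2 ≤
        X * (∑ l : ZMod (k * q), ‖cl (k * q) N LA η l‖ ^ 2 +
          ∑ l : ZMod (k * q), ‖cl (k * q) N (FF z r) η l‖ ^ 2)) :
    ‖∑ l : ZMod q, cl q N LA β l * cl q N (FF z r) β (a - l)‖ ^ 2 ≤
      (k : ℝ) ^ 2 * (X * (P (k * q) N LA β + P (k * q) N (FF z r) β)) := by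
  obtain ⟨l1, -⟩ := h3 q k N LA (FF z r) h β η hβ
  have l2 : ∀ F : ℕ → ℂ, ∑ l : ZMod (k * q), ‖cl (k * q) N F η l‖ ^ 2 = P (k * q) N F β := by
    intro F
    obtain ⟨-, l2⟩ := h3 q k N F F h β η hβ
    exact sum_congr rfl fun l _ => by rw [l2]
  rw [l2, l2] at hX
  set Y := X * (P (k * q) N LA β + P (k * q) N (FF z r) β) with hY
  set S := univ.filter (fun a' : ZMod (k * q) => ((a'.val : ℕ) : ZMod q) = a) with hS
  have hc : (S.card : ℝ) ≤ k := by exact_mod_cast card_above k q a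
  have h0 : ∀ a' ∈ S, ‖∑ l : ZMod (k * q), cl (k * q) N LA η l *
      cl (k * q) N (FF z r) η (a' - l)‖ ^ 2 ≤ Y := fun a' ha' => hX a' (mem_filter.1 ha').2
  calc ‖∑ l : ZMod q, cl q N LA β l * cl q N (FF z r) β (a - l)‖ ^ 2
      ≤ (∑ a' ∈ S, ‖∑ l : ZMod (k * q), cl (k * q) N LA η l *
          cl (k * q) N (FF z r) η (a' - l)‖) ^ 2 := by
        have := l1 a
        gcongr
    _ ≤ S.card * ∑ a' ∈ S, ‖∑ l : ZMod (k * q), cl (k * q) N LA η l *
          cl (k * q) N (FF z r) η (a' - l)‖ ^ 2 := sq_sum_le_card_mul_sum_sq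
    _ ≤ S.card * ∑ a' ∈ S, Y := by
        gcongr with a' ha'
        exact h0 a' ha'
    _ = (S.card : ℝ) ^ 2 * Y := by rw [sum_const, nsmul_eq_mul]; ring
    _ ≤ (k : ℝ) ^ 2 * Y := by
        rcases S.eq_empty_or_nonempty with hS0 | ⟨a', ha'⟩
        · -- no class: use the class of `a`
          exfalso
          have : ((a.val : ℕ) : ZMod (k * q)) ∈ S := by
            rw [hS, mem_filter]
            refine ⟨mem_univ _, ?_⟩
            have hq : 0 < q := NeZero.pos q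
            have hk : 0 < k := Nat.pos_of_ne_zero (left_ne_zero_of_mul (NeZero.ne (k * q)))
            have h1 : a.val < k * q := lt_of_lt_of_le (ZMod.val_lt a) (Nat.le_mul_of_pos_left q hk)
            rw [ZMod.val_natCast, Nat.mod_eq_of_lt h1, ZMod.natCast_zmod_val]
          rw [hS0] at this
          exact absurd this (notMem_empty _)
        · have hY0 : 0 ≤ Y := le_trans (by positivity) (h0 a' ha')
          gcongr

/-- Dirichlet's approximation theorem -/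
lemma dirich (ξ : ℝ) {n : ℕ} (hn : 0 < n) : ∃ (j : ℕ) (h : ℤ), j + 1 ≤ n ∧
    IsCoprime h ((j + 1 : ℕ) : ℤ) ∧
    |ξ - h / ((j + 1 : ℕ) : ℝ)| ≤ 1 / (((n : ℝ) + 1) * ((j + 1 : ℕ) : ℝ)) := by
  obtain ⟨x, hx1, hx2⟩ := Real.exists_rat_abs_sub_le_and_den_le ξ hn
  obtain ⟨j, hj⟩ : ∃ j, x.den = j + 1 := ⟨x.den - 1, by have := x.den_pos; omega⟩
  refine ⟨j, x.num, hj ▸ hx2, ?_, ?_⟩
  · rw [← hj]
    exact Int.isCoprime_iff_gcd_eq_one.2 x.reduced
  · rw [← hj, ← Rat.cast_def]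
    exact hx1

/-- the estimate for one frequency -/
lemma point (h3 : LiftStm) (h5 : OrthStm) {A C T : ℕ} {L : ℝ} {N q : ℕ} [NeZero q]
    {z r : ℕ} {a : ZMod q} (hL : L = Real.log N) (hL8 : 8 ≤ L) (hN : 1 ≤ N)
    (hqN : (q : ℝ) ≤ N) (hqLC : (q : ℝ) * L ^ C ≤ N)
    (hgcd : (Nat.gcd a.val q : ℝ) ≤ L ^ T)
    (hmin : ∀ (k : ℕ) (h : ℤ) (β : ℝ), L ^ C ≤ k → (q : ℝ) * k * L ^ C ≤ N →
      IsCoprime h (k : ℤ) → |q * β - h / k| ≤ 1 / (k : ℝ) ^ 2 →
      ∑ χ : DirichletCharacter ℂ q, ‖cs q N (FF z r) β χ‖ ^ 2 ≤ (N : ℝ) ^ 2 / L ^ (A + 11))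
    (hnon : ∀ β : ℝ, ∑ l ∈ univ.filter (fun l : ZMod q => ¬ IsUnit l),
      ‖cl q N (FF z r) β l‖ ^ 2 ≤ (N : ℝ) ^ 2 / (q * L ^ (A + 9)) / 2)
    (hpw : ∀ j : ℕ, ((j + 1 : ℕ) : ℝ) ≤ L ^ C → ∀ a' : ZMod ((j + 1) * q),
      (Nat.gcd a'.val ((j + 1) * q) : ℝ) ≤ L ^ (T + C) → ∀ η : ℝ, |η| ≤ L ^ C / N →
      ‖∑ l : ZMod ((j + 1) * q), cl ((j + 1) * q) N LA η l *
        cl ((j + 1) * q) N (FF z r) η (a' - l)‖ ^ 2 ≤
      (N : ℝ) ^ 2 / ((((j + 1) * q : ℕ) : ℝ) * L ^ (A + 2 * C + 9)) *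
        (∑ l : ZMod ((j + 1) * q), ‖cl ((j + 1) * q) N LA η l‖ ^ 2 +
          ∑ l : ZMod ((j + 1) * q), ‖cl ((j + 1) * q) N (FF z r) η l‖ ^ 2))
    (β : ℝ) :
    ‖∑ l : ZMod q, cl q N LA β l * cl q N (FF z r) β (a - l)‖ ^ 2 ≤
      (N : ℝ) ^ 2 / (q * L ^ (A + 9)) * P q N LA β +
      L ^ C * ((N : ℝ) ^ 2 / (q * L ^ (A + 2 * C + 9))) *
        ∑ j ∈ range ⌊L ^ C⌋₊, (P ((j + 1) * q) N LA β + P ((j + 1) * q) N (FF z r) β) := by
  have hL0 : 0 < L := by linarith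
  have hq0 : (0 : ℝ) < q := by exact_mod_cast NeZero.pos q
  have hN0 : (0 : ℝ) < N := by exact_mod_cast hN
  have hLC : 0 < L ^ C := by positivity
  have hsum0 : 0 ≤ ∑ j ∈ range ⌊L ^ C⌋₊,
      (P ((j + 1) * q) N LA β + P ((j + 1) * q) N (FF z r) β) :=
    sum_nonneg fun j _ => add_nonneg (P_nonneg _ _ _ _) (P_nonneg _ _ _ _)
  set n := ⌊(N : ℝ) / (q * L ^ C)⌋₊ with hn
  have hn0 : 0 < n := by
    rw [hn, Nat.floor_pos, le_div_iff₀ (by positivity), one_mul]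
    exact hqLC
  have hn1 : (n : ℝ) ≤ (N : ℝ) / (q * L ^ C) := Nat.floor_le (by positivity)
  have hn2 : (N : ℝ) / (q * L ^ C) < n + 1 := Nat.lt_floor_add_one _
  obtain ⟨j, h, hj, hcop, hx⟩ := dirich ((q : ℝ) * β) hn0
  have hjn : ((j + 1 : ℕ) : ℝ) ≤ n := by exact_mod_cast hj
  have hk0 : (0 : ℝ) < ((j + 1 : ℕ) : ℝ) := by positivity
  have hk1 : (1 : ℝ) ≤ ((j + 1 : ℕ) : ℝ) := by exact_mod_cast Nat.succ_pos j
  have hP0 : 0 ≤ P q N LA β := P_nonneg _ _ _ _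
  by_cases hkC : L ^ C ≤ ((j + 1 : ℕ) : ℝ)
  · -- minor arcs
    have e1 : (q : ℝ) * ((j + 1 : ℕ) : ℝ) * L ^ C ≤ N := by
      have := (le_div_iff₀ (by positivity)).1 (hjn.trans hn1)
      linarith
    have e2 : |(q : ℝ) * β - h / ((j + 1 : ℕ) : ℝ)| ≤ 1 / ((j + 1 : ℕ) : ℝ) ^ 2 := by
      refine hx.trans ?_
      rw [sq]
      apply one_div_le_one_div_of_le (by positivity)
      apply mul_le_mul_of_nonneg_right _ hk0.le
      linarith
    have e3 := hmin (j + 1) h β hkC e1 hcop e2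
    have e4 := P_le h5 e3 (hnon β)
    have hφ0 : (0 : ℝ) < q.totient := by exact_mod_cast Nat.totient_pos.2 (NeZero.pos q)
    have e5 : ((q.totient : ℝ))⁻¹ ≤ 3 * L / q := by
      have h1 := q_le_phi (NeZero.pos q)
      have h2 : Real.log q ≤ L := by
        rw [hL]
        exact Real.log_le_log hq0 hqN
      rw [inv_eq_one_div, div_le_div_iff₀ hφ0 hq0, one_mul]
      refine h1.trans ?_
      rw [mul_comm (3 * L)]
      apply mul_le_mul_of_nonneg_left _ hφ0.le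
      linarith
    have e6 : ((q.totient : ℝ))⁻¹ * ((N : ℝ) ^ 2 / L ^ (A + 11)) ≤
        (N : ℝ) ^ 2 / (q * L ^ (A + 9)) / 2 := by
      calc ((q.totient : ℝ))⁻¹ * ((N : ℝ) ^ 2 / L ^ (A + 11))
          ≤ 3 * L / q * ((N : ℝ) ^ 2 / L ^ (A + 11)) := by gcongr
        _ = (N : ℝ) ^ 2 / (q * L ^ (A + 9)) * (3 / L) := by
            rw [show A + 11 = (A + 9) + 2 by ring, pow_add]
            field_simp
        _ ≤ (N : ℝ) ^ 2 / (q * L ^ (A + 9)) * (1 / 2) := by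
            have : 3 / L ≤ 1 / 2 := by
              rw [div_le_div_iff₀ hL0 (by norm_num)]
              linarith
            gcongr
        _ = _ := by ring
    have e7 : P q N (FF z r) β ≤ (N : ℝ) ^ 2 / (q * L ^ (A + 9)) := by
      refine e4.trans ?_
      linarith
    calc ‖∑ l : ZMod q, cl q N LA β l * cl q N (FF z r) β (a - l)‖ ^ 2
        ≤ P q N LA β * P q N (FF z r) β := S_le q N LA (FF z r) β a
      _ ≤ P q N LA β * ((N : ℝ) ^ 2 / (q * L ^ (A + 9))) := by gcongr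
      _ = (N : ℝ) ^ 2 / (q * L ^ (A + 9)) * P q N LA β + 0 := by ring
      _ ≤ _ := by
          gcongr
          positivity
  · -- major arcs
    rw [not_le] at hkC
    set k : ℕ := j + 1 with hk
    have hηle : |β - h / ((k * q : ℕ) : ℝ)| ≤ L ^ C / N := by
      have e1 : β - h / ((k * q : ℕ) : ℝ) = ((q : ℝ) * β - h / (k : ℝ)) / q := by
        push_cast
        field_simp
      rw [e1, abs_div, abs_of_pos hq0, div_le_div_iff₀ hq0 hN0]
      have e2 : (N : ℝ) ≤ (n + 1) * (q * L ^ C) := by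
        have := (div_lt_iff₀ (by positivity)).1 hn2
        linarith
      have hn3 : (0 : ℝ) < n + 1 := by positivity
      calc |(q : ℝ) * β - h / (k : ℝ)| * N ≤ 1 / (((n : ℝ) + 1) * (k : ℝ)) * N := by gcongr
        _ ≤ 1 / ((n : ℝ) + 1) * N := by
            apply mul_le_mul_of_nonneg_right _ hN0.le
            apply one_div_le_one_div_of_le hn3
            nlinarith
        _ ≤ 1 / ((n : ℝ) + 1) * ((n + 1) * (q * L ^ C)) := by gcongr
        _ = L ^ C * q := by field_simp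
    have e3 := major (z := z) (r := r) (a := a) h3
      (X := (N : ℝ) ^ 2 / (((k * q : ℕ) : ℝ) * L ^ (A + 2 * C + 9)))
      (h := h) (β := β) (η := β - h / ((k * q : ℕ) : ℝ)) (by ring)
      (fun a' ha' => hpw j hkC.le a' (by
        have h1 := gcd_above ha'
        have h2 : ((Nat.gcd a'.val (k * q) : ℕ) : ℝ) ≤ (k : ℝ) * (Nat.gcd a.val q : ℝ) := by
          exact_mod_cast h1
        calc ((Nat.gcd a'.val (k * q) : ℕ) : ℝ) ≤ (k : ℝ) * (Nat.gcd a.val q : ℝ) := h2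
          _ ≤ L ^ C * L ^ T := by gcongr
          _ = L ^ (T + C) := by rw [← pow_add, add_comm]) _ hηle)
    have hPk : 0 ≤ P (k * q) N LA β + P (k * q) N (FF z r) β :=
      add_nonneg (P_nonneg _ _ _ _) (P_nonneg _ _ _ _)
    have e4 : P (k * q) N LA β + P (k * q) N (FF z r) β ≤ ∑ j ∈ range ⌊L ^ C⌋₊,
        (P ((j + 1) * q) N LA β + P ((j + 1) * q) N (FF z r) β) := by
      refine single_le_sum (f := fun j => P ((j + 1) * q) N LA β + P ((j + 1) * q) N (FF z r) β)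
        (fun j _ => add_nonneg (P_nonneg _ _ _ _) (P_nonneg _ _ _ _)) (mem_range.2 ?_)
      have : k ≤ ⌊L ^ C⌋₊ := Nat.le_floor hkC.le
      omega
    have hX0 : 0 ≤ (N : ℝ) ^ 2 / (q * L ^ (A + 2 * C + 9)) := by positivity
    calc ‖∑ l : ZMod q, cl q N LA β l * cl q N (FF z r) β (a - l)‖ ^ 2
        ≤ (k : ℝ) ^ 2 * ((N : ℝ) ^ 2 / (((k * q : ℕ) : ℝ) * L ^ (A + 2 * C + 9)) *
          (P (k * q) N LA β + P (k * q) N (FF z r) β)) := e3
      _ = k * ((N : ℝ) ^ 2 / (q * L ^ (A + 2 * C + 9))) *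
          (P (k * q) N LA β + P (k * q) N (FF z r) β) := by
          rw [Nat.cast_mul]
          field_simp
      _ ≤ L ^ C * ((N : ℝ) ^ 2 / (q * L ^ (A + 2 * C + 9))) *
          ∑ j ∈ range ⌊L ^ C⌋₊, (P ((j + 1) * q) N LA β + P ((j + 1) * q) N (FF z r) β) := by
          gcongr
      _ = 0 + L ^ C * ((N : ℝ) ^ 2 / (q * L ^ (A + 2 * C + 9))) *
          ∑ j ∈ range ⌊L ^ C⌋₊, (P ((j + 1) * q) N LA β + P ((j + 1) * q) N (FF z r) β) := by
          ring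
      _ ≤ _ := by
          gcongr
          positivity

lemma ev_log (C : ℕ) {s : ℝ} (hs : 0 < s) (b : ℝ) : ∀ᶠ N : ℕ in Filter.atTop,
    b ≤ Real.log N ∧ Real.log N ^ C ≤ (N : ℝ) ^ s := by
  have t1 : Filter.Tendsto (fun N : ℕ => Real.log N) Filter.atTop Filter.atTop :=
    Real.tendsto_log_atTop.comp tendsto_natCast_atTop_atTop
  have t2 := (isLittleO_log_rpow_rpow_atTop (C : ℝ) hs).bound one_pos
  have t3 := (tendsto_natCast_atTop_atTop (R := ℝ)).eventually t2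
  filter_upwards [t1.eventually_ge_atTop b, t3, t1.eventually_ge_atTop 0] with N h1 h2 h3
  refine ⟨h1, ?_⟩
  rw [one_mul, Real.rpow_natCast, Real.norm_of_nonneg (by positivity),
    Real.norm_of_nonneg (by positivity)] at h2
  exact h2

theorem core (h1 : PWStm) (h2 : MinFStm) (h3 : LiftStm) (h4 : ParsStm) (h5 : OrthStm)
    (_h6 : L2Stm) (h7 : NonUStm) : CoreStm := by
  intro A T ρ hρ
  obtain ⟨C, N₁, hM⟩ := h2 (A + 11) ρ hρ
  obtain ⟨U₀, N₂, hPW⟩ := h1 (A + 2 * C + 9) C (T + C) (ρ / 2) (by positivity)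
  obtain ⟨c, hc⟩ := h7
  obtain ⟨N₃, hN₃⟩ := Filter.eventually_atTop.1
    (ev_log C (s := ρ / 2) (by positivity) (max 8 (2 ^ c : ℝ)))
  refine ⟨U₀ + c + 2 * (A + 10) + 1, max (max N₁ N₂) (max N₃ 1), ?_⟩
  intro N hN q _ hq z r hPar a ha
  have hNN₁ : N₁ ≤ N := le_trans (le_trans (le_max_left _ _) (le_max_left _ _)) hN
  have hNN₂ : N₂ ≤ N := le_trans (le_trans (le_max_right _ _) (le_max_left _ _)) hN
  have hNN₃ : N₃ ≤ N := le_trans (le_trans (le_max_left _ _) (le_max_right _ _)) hN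
  have hN1 : 1 ≤ N := le_trans (le_trans (le_max_right _ _) (le_max_right _ _)) hN
  obtain ⟨hLmax, hLC⟩ := hN₃ N hNN₃
  set L := Real.log N with hL
  have hL8 : 8 ≤ L := (le_max_left _ _).trans hLmax
  have hLc : (2 : ℝ) ^ c ≤ L := (le_max_right _ _).trans hLmax
  have hL0 : 0 < L := by linarith
  have hL1 : 1 ≤ L := by linarith
  have hN0 : (0 : ℝ) < N := by exact_mod_cast hN1
  have hNr1 : (1 : ℝ) ≤ N := by exact_mod_cast hN1
  have hq0 : (0 : ℝ) < q := by exact_mod_cast NeZero.pos q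
  have hLC1 : 1 ≤ L ^ C := one_le_pow₀ hL1
  have hqLC' : (q : ℝ) * L ^ C ≤ (N : ℝ) ^ (1 / 2 - ρ / 2) := by
    calc (q : ℝ) * L ^ C ≤ (N : ℝ) ^ (1 / 2 - ρ) * (N : ℝ) ^ (ρ / 2) := by gcongr
      _ = (N : ℝ) ^ (1 / 2 - ρ / 2) := by
          rw [← Real.rpow_add hN0]
          congr 1
          ring
  have hqLC : (q : ℝ) * L ^ C ≤ N := by
    refine hqLC'.trans ?_
    calc (N : ℝ) ^ (1 / 2 - ρ / 2) ≤ (N : ℝ) ^ (1 : ℝ) :=
          Real.rpow_le_rpow_of_exponent_le hNr1 (by linarith)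
      _ = N := Real.rpow_one _
  have hqN : (q : ℝ) ≤ N := by
    refine le_trans ?_ hqLC
    nlinarith
  have hqNn : q ≤ N := by exact_mod_cast hqN
  have hPar₀ : Par U₀ N z r := Par.mono hPar (by omega) hL1
  -- the classes which are not units
  have hnon : ∀ β : ℝ, ∑ l ∈ univ.filter (fun l : ZMod q => ¬ IsUnit l),
      ‖cl q N (FF z r) β l‖ ^ 2 ≤ (N : ℝ) ^ 2 / (q * L ^ (A + 9)) / 2 := by
    intro β
    have e1 := hc q N (FF z r) (2 * L) (N / L ^ (U₀ + c + 2 * (A + 10) + 1)) β hN1 (by linarith)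
      (fun n hn => FF_le hPar hn) (by
        have := hPar.hC q (NeZero.pos q) hqNn
        refine le_trans (le_of_eq (sum_congr rfl fun n _ => ?_)) this
        unfold FF
        rw [Complex.norm_real, Real.norm_eq_abs])
    refine e1.trans ?_
    have e2 : N / L ^ (U₀ + c + 2 * (A + 10) + 1) * (N * (2 * L) ^ c) ≤
        ((N : ℝ) / L ^ (A + 10)) ^ 2 := by
      have h8 : (1 : ℝ) ≤ L ^ U₀ := one_le_pow₀ hL1
      calc N / L ^ (U₀ + c + 2 * (A + 10) + 1) * (N * (2 * L) ^ c)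
          = ((N : ℝ) / L ^ (A + 10)) ^ 2 * (2 ^ c / (L ^ U₀ * L)) := by
            rw [mul_pow, pow_succ, pow_add, pow_add, pow_mul']
            field_simp
        _ ≤ ((N : ℝ) / L ^ (A + 10)) ^ 2 * 1 := by
            gcongr
            rw [div_le_one (by positivity)]
            nlinarith
        _ = _ := mul_one _
    have e3 : √(N / L ^ (U₀ + c + 2 * (A + 10) + 1) * (N * (2 * L) ^ c)) ≤
        (N : ℝ) / L ^ (A + 10) := Real.sqrt_le_iff.2 ⟨by positivity, e2⟩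
    have e4 : (N : ℝ) / q + 1 ≤ 2 * (N / q) := by
      have : (1 : ℝ) ≤ N / q := by
        rw [le_div_iff₀ hq0, one_mul]
        exact hqN
      linarith
    calc ((N : ℝ) / q + 1) * √(N / L ^ (U₀ + c + 2 * (A + 10) + 1) * (N * (2 * L) ^ c))
        ≤ 2 * (N / q) * (N / L ^ (A + 10)) := by
          apply mul_le_mul e4 e3 (Real.sqrt_nonneg _) (by positivity)
      _ = (N : ℝ) ^ 2 / (q * L ^ (A + 9)) * (2 / L) := by
          rw [show A + 10 = (A + 9) + 1 by ring, pow_succ L (A + 9)]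
          field_simp
      _ ≤ (N : ℝ) ^ 2 / (q * L ^ (A + 9)) * (1 / 2) := by
          have : 2 / L ≤ 1 / 2 := by
            rw [div_le_div_iff₀ hL0 (by norm_num)]
            linarith
          gcongr
      _ = _ := by ring
  -- the estimate for one frequency
  have hpt := point (z := z) (r := r) (a := a) h3 h5 hL hL8 hN1 hqN hqLC ha
    (fun k h β hk1 hk2 hk3 hk4 => hM N hNN₁ q hq z r hPar.hD hPar.hV k h β hk1 hk2 hk3 hk4)
    hnon
    (fun j hj a' ha' η hη => hPW N hNN₂ ((j + 1) * q) (by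
      push_cast
      calc ((j : ℝ) + 1) * q ≤ L ^ C * q := by
            have : ((j + 1 : ℕ) : ℝ) = (j : ℝ) + 1 := by push_cast; ring
            rw [this] at hj
            gcongr
        _ = q * L ^ C := mul_comm _ _
        _ ≤ _ := hqLC') z r hPar₀ a' ha' η hη)
  -- Parseval
  set D : ℝ := ((2 * N + 1 : ℕ) : ℝ) with hD
  have hD0 : 0 < D := by rw [hD]; positivity
  have hsumP : ∀ (q' : ℕ) [NeZero q'] (F : ℕ → ℂ),
      ∑ t ∈ range (2 * N + 1), P q' N F ((t : ℝ) / D) = D * ∑ n ∈ Icc 1 N, ‖F n‖ ^ 2 :=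
    fun q' _ F => (h4 q' N F F hN1).2
  set WL := ∑ n ∈ Icc 1 N, ‖LA n‖ ^ 2 with hWL
  set WF := ∑ n ∈ Icc 1 N, ‖FF z r n‖ ^ 2 with hWF
  have hWL0 : 0 ≤ WL := sum_nonneg fun _ _ => by positivity
  have hWF0 : 0 ≤ WF := sum_nonneg fun _ _ => by positivity
  have hW : WL + WF ≤ N * L ^ 8 := by
    have w1 : WL ≤ N * L ^ 2 := LA_sq
    have w2 : WF ≤ 4 * L ^ 2 * (N * (1 + L) ^ 3) := FF_sq hPar hL1
    have w3 : (1 + L) ^ 3 ≤ (2 * L) ^ 3 := by gcongr; linarith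
    have w4 : 4 * L ^ 2 * (N * (1 + L) ^ 3) ≤ 4 * L ^ 2 * (N * (2 * L) ^ 3) := by gcongr
    have w5 : (1 : ℝ) ≤ L ^ 3 := one_le_pow₀ hL1
    have w6 : (512 : ℝ) ≤ L ^ 3 := by
      calc (512 : ℝ) = 8 ^ 3 := by norm_num
        _ ≤ L ^ 3 := by gcongr
    have w7 : (N : ℝ) * L ^ 2 ≤ N * L ^ 5 :=
      mul_le_mul_of_nonneg_left (pow_le_pow_right₀ hL1 (by norm_num)) hN0.le
    calc WL + WF ≤ N * L ^ 5 + 4 * L ^ 2 * (N * (2 * L) ^ 3) := by linarith
      _ = 33 * (N * L ^ 5) := by ring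
      _ ≤ L ^ 3 * (N * L ^ 5) := by
          apply mul_le_mul_of_nonneg_right _ (by positivity)
          linarith
      _ = N * L ^ 8 := by ring
  set c1 := (N : ℝ) ^ 2 / (q * L ^ (A + 9)) with hc1
  set c2 := L ^ C * ((N : ℝ) ^ 2 / (q * L ^ (A + 2 * C + 9))) with hc2
  have hc10 : 0 ≤ c1 := by positivity
  have hc20 : 0 ≤ c2 := by positivity
  have hK : ((⌊L ^ C⌋₊ : ℕ) : ℝ) ≤ L ^ C := Nat.floor_le (by positivity)
  have main := (h4 q N LA (FF z r) hN1).1 a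
  have step : ∑ t ∈ range (2 * N + 1), ‖∑ l : ZMod q, cl q N LA ((t : ℝ) / D) l *
      cl q N (FF z r) ((t : ℝ) / D) (a - l)‖ ^ 2 ≤ D * (c1 * (N * L ^ 8) +
        c2 * (L ^ C * (N * L ^ 8))) := by
    calc ∑ t ∈ range (2 * N + 1), ‖∑ l : ZMod q, cl q N LA ((t : ℝ) / D) l *
        cl q N (FF z r) ((t : ℝ) / D) (a - l)‖ ^ 2
        ≤ ∑ t ∈ range (2 * N + 1), (c1 * P q N LA ((t : ℝ) / D) +
          c2 * ∑ j ∈ range ⌊L ^ C⌋₊, (P ((j + 1) * q) N LA ((t : ℝ) / D) +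
            P ((j + 1) * q) N (FF z r) ((t : ℝ) / D))) :=
          sum_le_sum fun t _ => hpt _
      _ = c1 * (D * WL) + c2 * ∑ j ∈ range ⌊L ^ C⌋₊, (D * WL + D * WF) := by
          rw [sum_add_distrib, ← mul_sum, ← mul_sum, hsumP q LA, sum_comm]
          congr 2
          refine sum_congr rfl fun j _ => ?_
          rw [sum_add_distrib, hsumP ((j + 1) * q) LA, hsumP ((j + 1) * q) (FF z r)]
      _ = D * (c1 * WL + c2 * ((⌊L ^ C⌋₊ : ℕ) * (WL + WF))) := by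
          rw [sum_const, card_range, nsmul_eq_mul]
          ring
      _ ≤ D * (c1 * (N * L ^ 8) + c2 * (L ^ C * (N * L ^ 8))) := by
          have : WL ≤ N * L ^ 8 := by linarith
          have h0 : 0 ≤ WL + WF := by linarith
          gcongr
  have h9 : D * ∑ n ∈ (Icc 1 (2 * N)).filter (fun n : ℕ => (n : ZMod q) = a),
      ‖∑ b ∈ Icc 1 N, ∑ c ∈ Icc 1 N, if b + c = n then LA b * FF z r c else 0‖ ^ 2 ≤
        D * (c1 * (N * L ^ 8) + c2 * (L ^ C * (N * L ^ 8))) := main.le.trans step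
  have h10 := le_of_mul_le_mul_left h9 hD0
  refine h10.trans ?_
  have e1 : c1 * (N * L ^ 8) = (N : ℝ) ^ 3 / (q * L ^ A) * (1 / L) := by
    rw [hc1, show A + 9 = A + 8 + 1 by ring, pow_succ, pow_add]
    field_simp
    try ring
  have e2 : c2 * (L ^ C * (N * L ^ 8)) = (N : ℝ) ^ 3 / (q * L ^ A) * (1 / L) := by
    rw [hc2, show A + 2 * C + 9 = A + C + C + 8 + 1 by ring, pow_succ, pow_add, pow_add, pow_add]
    field_simp
    try ring
  rw [e1, e2, ← mul_add]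
  have e3 : 1 / L + 1 / L ≤ 1 := by
    rw [← add_div, div_le_one hL0]
    linarith
  calc (N : ℝ) ^ 3 / (q * L ^ A) * (1 / L + 1 / L) ≤ (N : ℝ) ^ 3 / (q * L ^ A) * 1 := by gcongr
    _ = _ := mul_one _

end Pool.Agent.Y614.GJ.Core
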